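import Mathlib

/-!
# Catalan numbers of index `2 ^ k - 1` modulo `6`: few exponents

`C (2 ^ k - 1)` is odd, so its residue modulo `6` is `3` if and only if it is divisible by `3`, and the
question asks for the `k` with residue `5`. We show that the residue is `3` for all `k < X` with at most
`4 X ^ (log 2 / log 3)` exceptions. So the set of the `k` with residue `5` (or `1`) has density zero, with
the exponent `log 2 / log 3 = 0.6309...`.

Proof. `C n` (`n = 2 ^ k - 1`) is prime to `3` only if all the ternary digits of `n` are `0` or `1` (Lucas). The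
order of `2` modulo `3 ^ m` is `2 * 3 ^ (m - 1)`, so the numbers `2 ^ k`, `k < 2 * 3 ^ (m - 1)`, are different
modulo `3 ^ m`, and only `2 ^ m` residues of `n` modulo `3 ^ m` have digits `0` and `1`. (The argument is that of
Narkiewicz for the powers of `2` without the ternary digit `2`.)
-/

set_option autoImplicit false

namespace Pool.Agent.Results.MP_a95da8_nt.FewExponents

open Nat

/-- digits by Lucas -/
theorem step (n : ℕ) (h : ¬ 3 ∣ centralBinom n) : n % 3 ≤ 1 ∧ ¬ 3 ∣ centralBinom (n / 3) := by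
  have : Fact (Nat.Prime 3) := ⟨by norm_num⟩
  have h1 := Choose.choose_modEq_choose_mod_mul_choose_div_nat (n := 2 * n) (k := n) (p := 3)
  rw [← centralBinom_eq_two_mul_choose] at h1
  have hlt : n % 3 < 3 := Nat.mod_lt _ (by norm_num)
  have h2 : n % 3 ≤ 1 := by
    by_contra hc
    have h3 : n % 3 = 2 := by omega
    have h4 : 2 * n % 3 = 1 := by omega
    rw [h3, h4, show Nat.choose 1 2 = 0 from rfl, zero_mul] at h1
    exact h ((Nat.modEq_zero_iff_dvd).1 h1)
  refine ⟨h2, fun h3 => h ?_⟩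
  have h4 : 2 * n / 3 = 2 * (n / 3) := by omega
  rw [h4, ← centralBinom_eq_two_mul_choose] at h1
  have h5 : 3 ∣ (2 * n % 3).choose (n % 3) * centralBinom (n / 3) := Dvd.dvd.mul_left h3 _
  exact (Nat.modEq_zero_iff_dvd).1 (h1.trans ((Nat.modEq_zero_iff_dvd).2 h5))

/-- the numbers below `3 ^ m` with the digits `0` and `1` -/
def D : ℕ → Finset ℕ
  | 0 => {0}
  | m + 1 => (D m).image (fun x => 3 * x) ∪ (D m).image (fun x => 3 * x + 1)

theorem card_D (m : ℕ) : (D m).card ≤ 2 ^ m := by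
  induction m with
  | zero => simp [D]
  | succ m ih =>
    have h1 := Finset.card_union_le ((D m).image (fun x => 3 * x)) ((D m).image (fun x => 3 * x + 1))
    have h2 := Finset.card_image_le (s := D m) (f := fun x => 3 * x)
    have h3 := Finset.card_image_le (s := D m) (f := fun x => 3 * x + 1)
    simp only [D]
    rw [pow_succ]
    omega

theorem mem_D (m : ℕ) : ∀ n : ℕ, ¬ 3 ∣ centralBinom n → n % 3 ^ m ∈ D m := by
  induction m with
  | zero => intro n _; simp [D, Nat.mod_one]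
  | succ m ih =>
    intro n hn
    obtain ⟨h1, h2⟩ := step n hn
    have h3 := ih (n / 3) h2
    have h4 : n % 3 ^ (m + 1) = n % 3 + 3 * (n / 3 % 3 ^ m) := by
      rw [pow_succ, mul_comm (3 ^ m) 3, Nat.mod_mul]
    rw [h4]
    have h5 : n % 3 = 0 ∨ n % 3 = 1 := by omega
    simp only [D, Finset.mem_union, Finset.mem_image]
    rcases h5 with h | h
    · left; exact ⟨_, h3, by rw [h]; omega⟩
    · right; exact ⟨_, h3, by rw [h]; omega⟩

/-- the order of `2` -/
theorem order (m d : ℕ) (hd : d ≠ 0) (h : 3 ^ (m + 1) ∣ 2 ^ d - 1) : 2 * 3 ^ m ≤ d := by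
  have : Fact (Nat.Prime 3) := ⟨by norm_num⟩
  have h3 : 3 ∣ 2 ^ d - 1 := (dvd_pow_self 3 (Nat.succ_ne_zero m)).trans h
  have hev : d % 2 = 0 := by
    by_contra hc
    have h1 : d = 2 * (d / 2) + 1 := by omega
    have h2 : 2 ^ d % 3 = 2 := by
      rw [h1, pow_succ, pow_mul]
      have : (2 ^ 2) ^ (d / 2) % 3 = 1 := by
        rw [Nat.pow_mod]; norm_num
      rw [Nat.mul_mod, this]
    have h4 : 1 ≤ 2 ^ d := Nat.one_le_two_pow
    omega
  obtain ⟨e, rfl⟩ : ∃ e, d = 2 * e := ⟨d / 2, by omega⟩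
  have he : e ≠ 0 := by omega
  have h4 := padicValNat.pow_sub_pow (p := 3) (by decide) (x := 4) (y := 1) (by norm_num)
    (by norm_num) (by norm_num) he
  have h5 : (2 : ℕ) ^ (2 * e) - 1 = 4 ^ e - 1 ^ e := by rw [pow_mul, one_pow]; norm_num
  rw [h5] at h
  have h6 : 4 ^ e - 1 ^ e ≠ 0 := by
    have : 4 ≤ 4 ^ e := Nat.le_self_pow he 4
    rw [one_pow]; omega
  have h7 := (padicValNat_dvd_iff_le h6).1 h
  rw [h4] at h7
  have h8 : padicValNat 3 (4 - 1) = 1 := by
    rw [show 4 - 1 = 3 from rfl]; exact padicValNat_self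
  rw [h8] at h7
  have h9 : 3 ^ m ∣ e := (padicValNat_dvd_iff_le he).2 (by omega)
  have := Nat.le_of_dvd (Nat.pos_of_ne_zero he) h9
  omega

theorem count (m X : ℕ) (hX : X ≤ 2 * 3 ^ m) :
    ((Finset.range X).filter fun k => ¬ 3 ∣ catalan (2 ^ k - 1)).card ≤ 2 ^ (m + 1) := by
  refine le_trans (Finset.card_le_card_of_injOn (t := D (m + 1))
    (fun k => (2 ^ k - 1) % 3 ^ (m + 1)) ?_ ?_) (card_D (m + 1))
  · intro k hk
    obtain ⟨-, hk2⟩ := Finset.mem_filter.1 (Finset.mem_coe.1 hk)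
    refine Finset.mem_coe.2 (mem_D (m + 1) _ fun h3 => hk2 ?_)
    rw [← succ_mul_catalan_eq_centralBinom] at h3
    have h4 : 2 ^ k - 1 + 1 = 2 ^ k := Nat.sub_add_cancel Nat.one_le_two_pow
    rw [h4] at h3
    rcases (Nat.Prime.dvd_mul (by norm_num : Nat.Prime 3)).1 h3 with h5 | h5
    · exact absurd (Nat.Prime.dvd_of_dvd_pow (by norm_num : Nat.Prime 3) h5) (by norm_num)
    · exact h5
  · intro i hi j hj hij
    have hi1 := Finset.mem_range.1 (Finset.mem_filter.1 (Finset.mem_coe.1 hi)).1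
    have hj1 := Finset.mem_range.1 (Finset.mem_filter.1 (Finset.mem_coe.1 hj)).1
    have key : ∀ i j : ℕ, i < j → j < X →
        (2 ^ i - 1) % 3 ^ (m + 1) = (2 ^ j - 1) % 3 ^ (m + 1) → False := by
      intro i j hlt hjX h
      have h1 : 3 ^ (m + 1) ∣ (2 ^ j - 1) - (2 ^ i - 1) :=
        (Nat.modEq_iff_dvd' (Nat.sub_le_sub_right (Nat.pow_le_pow_right (by norm_num) hlt.le) 1)).1 h
      have h2 : (2 ^ j - 1) - (2 ^ i - 1) = 2 ^ i * (2 ^ (j - i) - 1) := by
        have h3 : 2 ^ j = 2 ^ i * 2 ^ (j - i) := by rw [← pow_add]; congr 1; omega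
        have h4 : 1 ≤ 2 ^ i := Nat.one_le_two_pow
        rw [Nat.mul_sub, mul_one, ← h3]
        omega
      rw [h2] at h1
      have h3 : Nat.Coprime (3 ^ (m + 1)) (2 ^ i) := Nat.Coprime.pow _ _ (by norm_num)
      have h4 := order m (j - i) (by omega) (h3.dvd_of_dvd_mul_left h1)
      omega
    rcases lt_trichotomy i j with h | h | h
    · exact (key i j h hj1 hij).elim
    · exact h
    · exact (key j i h hi1 hij.symm).elim

/-- **Few exceptions.** The number of the `k < X` such that the Catalan number `C (2 ^ k - 1)` is not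
divisible by `3` (equivalently, not `3` modulo `6`) is at most `4 X ^ (log 2 / log 3)`. -/
theorem result (X : ℕ) (hX : 1 ≤ X) :
    (((Finset.range X).filter fun k => ¬ 3 ∣ catalan (2 ^ k - 1)).card : ℝ) ≤
      4 * (X : ℝ) ^ (Real.log 2 / Real.log 3) := by
  have hX' : (1 : ℝ) ≤ X := by exact_mod_cast hX
  have hl3 : 0 < Real.log 3 := Real.log_pos (by norm_num)
  have hl2 : 0 < Real.log 2 := Real.log_pos (by norm_num)
  have he : 0 ≤ Real.log 2 / Real.log 3 := by positivity
  -- choose `m`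
  set m := Nat.log 3 X with hm
  have h1 : 3 ^ m ≤ X := Nat.pow_log_le_self 3 (by omega)
  have h2 : X < 3 ^ (m + 1) := Nat.lt_pow_succ_log_self (by norm_num) X
  have h3 := count (m + 1) X (by omega)
  set c := Real.log 2 / Real.log 3 with hc
  have h4 : (3 : ℝ) ^ c = 2 := by
    rw [Real.rpow_def_of_pos (by norm_num), hc, mul_div_cancel₀ _ hl3.ne', Real.exp_log (by norm_num)]
  have h5 : ((3 : ℝ) ^ m) ^ c = 2 ^ m := by
    rw [← Real.rpow_natCast 3 m, ← Real.rpow_mul (by norm_num), mul_comm, Real.rpow_mul (by norm_num),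
      h4, Real.rpow_natCast]
  have h6 : ((3 : ℝ) ^ m) ^ c ≤ (X : ℝ) ^ c := by
    refine Real.rpow_le_rpow (by positivity) ?_ he
    exact_mod_cast h1
  have h7 : (((Finset.range X).filter fun k => ¬ 3 ∣ catalan (2 ^ k - 1)).card : ℝ) ≤
      (2 : ℝ) ^ (m + 1 + 1) := by exact_mod_cast h3
  have h8 : (2 : ℝ) ^ (m + 1 + 1) = 4 * 2 ^ m := by ring
  rw [h8, ← h5] at h7
  linarith

end Pool.Agent.Results.MP_a95da8_nt.FewExponents
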